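import Mathlib

/-!
Problem MP_85fffe_co: maximally repeated patterns of real numbers under translation.

We show `f(n) ≥ 2 ^ (⌊n / 2⌋ - 1)` for every `n ≥ 2`, so `f` grows exponentially.
The set is `X = {0, ..., n} \ {m}` with `m = ⌊n / 2⌋`, and the patterns are all the sets
`V ⊆ {0, ..., m - 1}` with `0 ∈ V`.
-/

set_option autoImplicit false

namespace Pool.Agent.Results.MP_85fffe_co.ExponentialLower

open Finset

/-- `A` occurs in `X` at two different positions. -/
def IsRepeated (X A : Finset ℝ) : Prop :=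
  ∃ t₁ t₂ : ℝ, t₁ ≠ t₂ ∧ A.image (· + t₁) ⊆ X ∧ A.image (· + t₂) ⊆ X

/-- `A` is a maximally repeated pattern of `X`: nonempty, repeated, and no strictly larger pattern
occurs at all the positions where `A` occurs. -/
def IsMaxRepeated (X A : Finset ℝ) : Prop :=
  A.Nonempty ∧ IsRepeated X A ∧
    ¬ ∃ B : Finset ℝ, A ⊂ B ∧ ∀ t : ℝ, A.image (· + t) ⊆ X → B.image (· + t) ⊆ X

/-- The point set `{0, ..., n} \ {m}` as real numbers. -/
noncomputable def XR (n m : ℕ) : Finset ℝ := ((range (n + 1)).erase m).image (fun k : ℕ => (k : ℝ))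

/-- The pattern `{0} ∪ V` as real numbers. -/
noncomputable def patR (V : Finset ℕ) : Finset ℝ := (insert 0 V).image (fun k : ℕ => (k : ℝ))

lemma mem_XR {n m : ℕ} {x : ℝ} : x ∈ XR n m ↔ ∃ k : ℕ, (k ≤ n ∧ k ≠ m) ∧ (k : ℝ) = x := by
  simp only [XR, mem_image, mem_erase, mem_range]
  constructor
  · rintro ⟨k, hk, rfl⟩
    exact ⟨k, ⟨by omega, hk.1⟩, rfl⟩
  · rintro ⟨k, hk, rfl⟩
    exact ⟨k, ⟨hk.2, by omega⟩, rfl⟩

lemma cast_mem_XR {n m k : ℕ} : (k : ℝ) ∈ XR n m ↔ (k ≤ n ∧ k ≠ m) := by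
  rw [mem_XR]
  constructor
  · rintro ⟨j, hj, hjk⟩
    have : j = k := by exact_mod_cast hjk
    subst this
    exact hj
  · intro h
    exact ⟨k, h, rfl⟩

lemma mem_patR {V : Finset ℕ} {x : ℝ} : x ∈ patR V ↔ ∃ k : ℕ, k ∈ insert 0 V ∧ (k : ℝ) = x := by
  simp only [patR, mem_image]

lemma cast_mem_patR {V : Finset ℕ} {k : ℕ} : (k : ℝ) ∈ patR V ↔ k ∈ insert 0 V := by
  rw [mem_patR]
  constructor
  · rintro ⟨j, hj, hjk⟩
    have : j = k := by exact_mod_cast hjk
    subst this
    exact hj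
  · intro h
    exact ⟨k, h, rfl⟩

lemma zero_mem_patR (V : Finset ℕ) : (0 : ℝ) ∈ patR V := by
  rw [mem_patR]
  exact ⟨0, by simp, by simp⟩

lemma nonneg_of_mem_patR {V : Finset ℕ} {x : ℝ} (hx : x ∈ patR V) : 0 ≤ x := by
  rw [mem_patR] at hx
  obtain ⟨a, _, rfl⟩ := hx
  positivity

lemma card_XR {n m : ℕ} (h : m ≤ n) : (XR n m).card = n := by
  rw [XR, card_image_of_injective _ Nat.cast_injective, card_erase_of_mem]
  · simp
  · simp only [mem_range]; omega

/-- The translate by `t` of the pattern of `V` lies in the point set when `m - t` is not in it. -/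
lemma translate_sub {n m : ℕ} (hm : 1 ≤ m) {V : Finset ℕ} (hV : V ⊆ Ico 1 m) {t : ℕ}
    (ht : m - 1 + t ≤ n) (h : ∀ k ∈ insert 0 V, k + t ≠ m) :
    (patR V).image (· + (t : ℝ)) ⊆ XR n m := by
  intro x hx
  rw [mem_image] at hx
  obtain ⟨y, hy, rfl⟩ := hx
  rw [mem_patR] at hy
  obtain ⟨k, hk, rfl⟩ := hy
  have e : ((k : ℝ) + (t : ℝ)) = ((k + t : ℕ) : ℝ) := by push_cast; rfl
  rw [e, cast_mem_XR]
  refine ⟨?_, h k hk⟩
  rw [mem_insert] at hk
  rcases hk with rfl | hk
  · omega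
  · have := hV hk
    simp only [mem_Ico] at this
    omega

lemma lt_of_mem {m : ℕ} (hm : 1 ≤ m) {V : Finset ℕ} (hV : V ⊆ Ico 1 m) {k : ℕ}
    (hk : k ∈ insert 0 V) : k < m := by
  rw [mem_insert] at hk
  rcases hk with rfl | hk
  · omega
  · have := hV hk
    simp only [mem_Ico] at this
    omega

lemma isMaxRepeated {n m : ℕ} (hm : 1 ≤ m) (hmn : 2 * m ≤ n) {V : Finset ℕ} (hV : V ⊆ Ico 1 m) :
    IsMaxRepeated (XR n m) (patR V) := by
  have h0 : (patR V).image (· + ((0 : ℕ) : ℝ)) ⊆ XR n m := by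
    apply translate_sub hm hV (by omega)
    intro k hk
    have := lt_of_mem hm hV hk
    omega
  have h1 : (patR V).image (· + ((n - m + 1 : ℕ) : ℝ)) ⊆ XR n m := by
    apply translate_sub hm hV (by omega)
    intro k hk
    omega
  refine ⟨⟨0, zero_mem_patR V⟩, ⟨((0 : ℕ) : ℝ), ((n - m + 1 : ℕ) : ℝ), ?_, h0, h1⟩, ?_⟩
  · intro h
    have : 0 = n - m + 1 := by exact_mod_cast h
    omega
  · rintro ⟨B, ⟨_, hnot⟩, hB⟩
    apply hnot
    intro b hb
    have hb0 := hB _ h0 (mem_image_of_mem _ hb)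
    have hb1 := hB _ h1 (mem_image_of_mem _ hb)
    simp only [Nat.cast_zero, add_zero] at hb0
    rw [mem_XR] at hb0
    obtain ⟨k, _, rfl⟩ := hb0
    have e : ((k : ℝ) + ((n - m + 1 : ℕ) : ℝ)) = ((k + (n - m + 1) : ℕ) : ℝ) := by push_cast; rfl
    simp only [e] at hb1
    rw [cast_mem_XR] at hb1
    have hkm : k < m := by omega
    rw [cast_mem_patR]
    by_contra hcon
    have h2 : (patR V).image (· + ((m - k : ℕ) : ℝ)) ⊆ XR n m := by
      apply translate_sub hm hV (by omega)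
      intro j hj hjk
      have : j = k := by omega
      subst this
      exact hcon hj
    have hb2 := hB _ h2 (mem_image_of_mem _ hb)
    have e2 : ((k : ℝ) + ((m - k : ℕ) : ℝ)) = ((k + (m - k) : ℕ) : ℝ) := by push_cast; rfl
    simp only [e2] at hb2
    rw [cast_mem_XR] at hb2
    omega

lemma translate_eq {U V : Finset ℕ} {t : ℝ} (h : patR V = (patR U).image (· + t)) :
    patR U = patR V := by
  have h1 : 0 ≤ t := by
    have : (0 : ℝ) + t ∈ patR V := by
      rw [h, mem_image]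
      exact ⟨0, zero_mem_patR U, rfl⟩
    simpa using nonneg_of_mem_patR this
  have h2 : t ≤ 0 := by
    have : (0 : ℝ) ∈ (patR U).image (· + t) := by
      rw [← h]
      exact zero_mem_patR V
    rw [mem_image] at this
    obtain ⟨y, hy, hyt⟩ := this
    have := nonneg_of_mem_patR hy
    linarith
  have h3 : t = 0 := le_antisymm h2 h1
  subst h3
  rw [h]
  ext x
  simp

lemma patR_inj {m : ℕ} {U V : Finset ℕ} (hU : U ⊆ Ico 1 m) (hV : V ⊆ Ico 1 m)
    (h : patR U = patR V) : U = V := by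
  have main : ∀ W W' : Finset ℕ, W ⊆ Ico 1 m → patR W = patR W' → W ⊆ W' := by
    intro W W' hW hWW t ht
    have h1 : ((t : ℕ) : ℝ) ∈ patR W := by
      rw [cast_mem_patR]
      exact mem_insert_of_mem ht
    rw [hWW, cast_mem_patR, mem_insert] at h1
    rcases h1 with rfl | h1
    · have := hW ht
      simp only [mem_Ico] at this
      omega
    · exact h1
  exact Finset.Subset.antisymm (main U V hU h) (main V U hV h.symm)

/-- For every `n ≥ 2` some set of `n` real numbers has at least `2 ^ (⌊n / 2⌋ - 1)` maximally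
repeated patterns, no two of which are translates of each other. -/
theorem result (n : ℕ) (hn : 2 ≤ n) :
    ∃ X : Finset ℝ, X.card = n ∧ ∃ S : Finset (Finset ℝ),
      (∀ A ∈ S, IsMaxRepeated X A) ∧
      (∀ A ∈ S, ∀ B ∈ S, ∀ t : ℝ, B = A.image (· + t) → A = B) ∧
      2 ^ (n / 2 - 1) ≤ S.card := by
  have hm : 1 ≤ n / 2 := by omega
  refine ⟨XR n (n / 2), card_XR (by omega), (Ico 1 (n / 2)).powerset.image patR, ?_, ?_, ?_⟩
  · intro A hA
    rw [mem_image] at hA
    obtain ⟨V, hV, rfl⟩ := hA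
    rw [mem_powerset] at hV
    exact isMaxRepeated hm (by omega) hV
  · intro A hA B hB t h
    rw [mem_image] at hA hB
    obtain ⟨U, _, rfl⟩ := hA
    obtain ⟨V, _, rfl⟩ := hB
    exact translate_eq h
  · rw [card_image_of_injOn]
    · rw [card_powerset]
      simp
    · intro U hU V hV h
      simp only [coe_powerset, Set.mem_preimage, Set.mem_powerset_iff, coe_subset] at hU hV
      exact patR_inj hU hV h

end Pool.Agent.Results.MP_85fffe_co.ExponentialLower
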